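import Pool.Agent.Y536.OQ.Stm0

/-! Project OQ: numbers of odd permutations, the case `2 p ≤ m < 3 p`. -/

set_option autoImplicit false

namespace Pool.Agent.Y145.OQ.MID

open Finset Equiv.Perm
open Pool.Agent.Y536.OQ (oddc S_MID)

open scoped Nat

open Classical in
theorem oddc_eq (m p : ℕ) : oddc m p = (univ.filter fun s : Equiv.Perm (Fin m) =>
    Equiv.Perm.sign s = -1 ∧ ¬ p ∣ orderOf s).card := by
  unfold oddc
  rw [Nat.card_eq_fintype_card, Fintype.card_subtype]

open Classical in
theorem sub (m p : ℕ) (t : Multiset ℕ) (hodd : Odd (t.sum + Multiset.card t))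
    (ht : ¬ p ∣ t.lcm) :
    (univ.filter fun g : Equiv.Perm (Fin m) => g.cycleType = t) ⊆
      (univ.filter fun s : Equiv.Perm (Fin m) => Equiv.Perm.sign s = -1 ∧ ¬ p ∣ orderOf s) := by
  intro g hg
  rw [mem_filter] at hg ⊢
  refine ⟨mem_univ _, ?_, ?_⟩
  · rw [sign_of_cycleType, hg.2]
    exact hodd.neg_one_pow
  · rw [← lcm_cycleType, hg.2]
    exact ht

open Classical in
theorem one_le (m p : ℕ) (t : Multiset ℕ) (hodd : Odd (t.sum + Multiset.card t))
    (ht : ¬ p ∣ t.lcm) :
    (univ.filter fun g : Equiv.Perm (Fin m) => g.cycleType = t).card ≤ oddc m p := by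
  rw [oddc_eq]
  exact card_le_card (sub m p t hodd ht)

open Classical in
theorem two_le (m p : ℕ) (t u : Multiset ℕ) (htu : t ≠ u)
    (hodd : Odd (t.sum + Multiset.card t)) (ht : ¬ p ∣ t.lcm)
    (hodd' : Odd (u.sum + Multiset.card u)) (hu : ¬ p ∣ u.lcm) :
    (univ.filter fun g : Equiv.Perm (Fin m) => g.cycleType = t).card +
      (univ.filter fun g : Equiv.Perm (Fin m) => g.cycleType = u).card ≤ oddc m p := by
  rw [oddc_eq, ← card_union_of_disjoint]
  · exact card_le_card (union_subset (sub m p t hodd ht) (sub m p u hodd' hu))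
  · rw [disjoint_left]
    intro g hg hg'
    rw [mem_filter] at hg hg'
    exact htu (hg.2.symm.trans hg'.2)

open Classical in
theorem hsing (n : ℕ) : ∀ a : ℕ, 2 ≤ a → a ≤ n →
    (univ.filter fun g : Equiv.Perm (Fin n) => g.cycleType = {a}).card * ((n - a)! * a) = n ! := by
  intro a ha han
  have h := card_of_cycleType_mul_eq (Fin n) {a}
  rw [if_pos (by simpa using ⟨han, ha⟩)] at h
  simpa [mul_assoc] using h

open Classical in
theorem hpair (n : ℕ) (hn : 5 ≤ n) :
    (univ.filter fun g : Equiv.Perm (Fin n) => g.cycleType = {n - 2, 2}).card *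
      (2 * (n - 2)) = n ! := by
  have hm2 : (n - 2) ≠ 2 := by omega
  have h := card_of_cycleType_mul_eq (Fin n) {n - 2, 2}
  have hcond : (({n - 2, 2} : Multiset ℕ)).sum ≤ Fintype.card (Fin n) ∧
      ∀ a ∈ ({n - 2, 2} : Multiset ℕ), 2 ≤ a := by
    constructor
    · simp only [Multiset.insert_eq_cons, Multiset.sum_cons, Multiset.sum_singleton,
        Fintype.card_fin]
      omega
    · intro a ha
      simp only [Multiset.insert_eq_cons, Multiset.mem_cons, Multiset.mem_singleton] at ha
      omega
  rw [if_pos hcond] at h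
  have hprod : ∏ a ∈ (({n - 2, 2} : Multiset ℕ)).toFinset,
      (({n - 2, 2} : Multiset ℕ).count a)! = 1 := by
    apply Finset.prod_eq_one
    intro a ha
    have hnd : (({n - 2, 2} : Multiset ℕ)).Nodup := by
      simp [hm2]
    have := Multiset.nodup_iff_count_le_one.1 hnd a
    interval_cases h7 : ({n - 2, 2} : Multiset ℕ).count a <;> rfl
  rw [hprod, mul_one] at h
  have hs : (Fintype.card (Fin n) - (({n - 2, 2} : Multiset ℕ)).sum)! = 1 := by
    have : Fintype.card (Fin n) - (({n - 2, 2} : Multiset ℕ)).sum = 0 := by
      simp only [Multiset.insert_eq_cons, Multiset.sum_cons, Multiset.sum_singleton,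
        Fintype.card_fin]
      omega
    rw [this]; rfl
  rw [hs, one_mul] at h
  have hpr : (({n - 2, 2} : Multiset ℕ)).prod = 2 * (n - 2) := by
    simp only [Multiset.insert_eq_cons, Multiset.prod_cons, Multiset.prod_singleton]
    ring
  rw [hpr, Fintype.card_fin] at h
  exact h

theorem done : S_MID := by
  classical
  intro m p hp h2 hm1 hm2
  have hp3 : 3 ≤ p := by
    have := hp.two_le
    omega
  have key : ∀ (t : Multiset ℕ) (X : ℕ), Odd (t.sum + Multiset.card t) → ¬ p ∣ t.lcm →
      (univ.filter fun g : Equiv.Perm (Fin m) => g.cycleType = t).card * X = m ! →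
      (p + 1) * X ≤ 4 * p ^ 2 → (p + 1) * m ! ≤ 4 * p ^ 2 * oddc m p := by
    intro t X h1 h3 h4 h5
    have h6 := one_le m p t h1 h3
    rw [← h4]
    calc (p + 1) * ((univ.filter fun g : Equiv.Perm (Fin m) => g.cycleType = t).card * X) =
        ((p + 1) * X) * (univ.filter fun g : Equiv.Perm (Fin m) => g.cycleType = t).card := by ring
      _ ≤ 4 * p ^ 2 * oddc m p := Nat.mul_le_mul h5 h6
  rcases Nat.even_or_odd m with he | ho
  · by_cases hpm : p ∣ m
    · -- `m = 2 p`
      have hm : m = 2 * p := by
        obtain ⟨c, hc⟩ := hpm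
        have h3 : 2 ≤ c := by
          by_contra h
          have : c ≤ 1 := by omega
          nlinarith
        have h4 : c < 3 := by
          by_contra h
          have : 3 ≤ c := by omega
          nlinarith
        have h5 : c = 2 := by omega
        rw [hc, h5, mul_comm]
      apply key {m - 2} ((m - (m - 2))! * (m - 2))
      · obtain ⟨k, hk⟩ := he
        refine ⟨k - 1, ?_⟩
        simp only [Multiset.sum_singleton, Multiset.card_singleton]
        omega
      · rw [Multiset.lcm_singleton, normalize_eq]
        intro h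
        have h5 : p ∣ m - (m - 2) := Nat.dvd_sub hpm h
        have h6 : m - (m - 2) = 2 := by omega
        rw [h6] at h5
        exact h2 ((Nat.prime_dvd_prime_iff_eq hp Nat.prime_two).1 h5)
      · exact hsing m (m - 2) (by omega) (by omega)
      · have h6 : m - (m - 2) = 2 := by omega
        obtain ⟨q, rfl⟩ : ∃ q, p = q + 1 := ⟨p - 1, by omega⟩
        have h7 : m - 2 = 2 * q := by omega
        rw [h6, Nat.factorial_two, h7]
        nlinarith
    · apply key {m} ((m - m)! * m)
      · obtain ⟨k, hk⟩ := he
        refine ⟨k, ?_⟩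
        simp only [Multiset.sum_singleton, Multiset.card_singleton]
        omega
      · rw [Multiset.lcm_singleton, normalize_eq]
        exact hpm
      · exact hsing m m (by omega) le_rfl
      · rw [Nat.sub_self, Nat.factorial_zero, one_mul]
        have h7 : m + 1 ≤ 3 * p := by omega
        nlinarith
  · by_cases hpm : p ∣ m - 1
    · -- `m = 2 p + 1`
      have hm : m = 2 * p + 1 := by
        obtain ⟨c, hc⟩ := hpm
        have h3 : 2 ≤ c := by
          by_contra h
          have h' : c ≤ 1 := by omega
          have : p * c ≤ p := by nlinarith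
          omega
        have h4 : c < 3 := by
          by_contra h
          have h' : 3 ≤ c := by omega
          have : p * 3 ≤ p * c := Nat.mul_le_mul_left _ h'
          omega
        have h5 : c = 2 := by omega
        rw [h5] at hc
        omega
      have hodd : Odd p := hp.odd_of_ne_two h2
      have e1 := hpair m (by omega)
      have e2 := hsing m (m - 3) (by omega) (by omega)
      have e3 : m - (m - 3) = 3 := by omega
      have e4 : (3 : ℕ)! = 6 := rfl
      rw [e3, e4] at e2
      have hnd2 : ¬ p ∣ m - 2 := by
        intro h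
        have h5 : p ∣ (m - 1) - (m - 2) := Nat.dvd_sub hpm h
        have h6 : (m - 1) - (m - 2) = 1 := by omega
        rw [h6] at h5
        exact hp.one_lt.ne' (Nat.dvd_one.1 h5)
      have hp2 : ¬ p ∣ 2 := fun h => h2 ((Nat.prime_dvd_prime_iff_eq hp Nat.prime_two).1 h)
      have hnd3 : ¬ p ∣ m - 3 := by
        intro h
        have h5 : p ∣ (m - 1) - (m - 3) := Nat.dvd_sub hpm h
        have h6 : (m - 1) - (m - 3) = 2 := by omega
        rw [h6] at h5
        exact hp2 h5
      have e5 := two_le m p {m - 2, 2} {m - 3} (by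
        intro h
        have := congrArg Multiset.card h
        simp at this) (by
        obtain ⟨k, hk⟩ := ho
        refine ⟨k + 1, ?_⟩
        simp only [Multiset.insert_eq_cons, Multiset.sum_cons, Multiset.sum_singleton,
          Multiset.card_cons, Multiset.card_singleton]
        omega) (by
        intro h
        have h3 : (({m - 2, 2} : Multiset ℕ)).lcm ∣ (m - 2) * 2 := by
          rw [Multiset.lcm_dvd]
          intro b hb
          simp only [Multiset.insert_eq_cons, Multiset.mem_cons, Multiset.mem_singleton] at hb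
          rcases hb with rfl | rfl
          · exact Dvd.intro _ rfl
          · exact Dvd.intro_left _ rfl
        rcases (Nat.Prime.dvd_mul hp).1 (h.trans h3) with h4 | h4
        · exact hnd2 h4
        · exact hp2 h4) (by
        obtain ⟨k, hk⟩ := ho
        refine ⟨k - 1, ?_⟩
        simp only [Multiset.sum_singleton, Multiset.card_singleton]
        omega) (by
        rw [Multiset.lcm_singleton, normalize_eq]
        exact hnd3)
      generalize (univ.filter fun g : Equiv.Perm (Fin m) => g.cycleType = {m - 2, 2}).card = N1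
        at e1 e5
      generalize (univ.filter fun g : Equiv.Perm (Fin m) => g.cycleType = {m - 3}).card = N2
        at e2 e5
      generalize oddc m p = O at e5 ⊢
      have f1 : m ! ≤ 4 * p * N1 := by
        rw [← e1]
        calc N1 * (2 * (m - 2)) ≤ N1 * (4 * p) := Nat.mul_le_mul_left _ (by omega)
          _ = 4 * p * N1 := by ring
      have f2 : m ! ≤ 12 * p * N2 := by
        rw [← e2]
        calc N2 * (6 * (m - 3)) ≤ N2 * (12 * p) := Nat.mul_le_mul_left _ (by omega)
          _ = 12 * p * N2 := by ring
      have f3 : m ! ≤ 3 * p * O := by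
        have : 4 * m ! ≤ 12 * p * O := by
          calc 4 * m ! = 3 * m ! + m ! := by ring
            _ ≤ 3 * (4 * p * N1) + 12 * p * N2 := by omega
            _ = 12 * p * (N1 + N2) := by ring
            _ ≤ 12 * p * O := Nat.mul_le_mul_left _ e5
        nlinarith
      have f4 : 3 * ((p + 1) * m !) ≤ 3 * (4 * p ^ 2 * O) := by
        calc 3 * ((p + 1) * m !) = (3 * (p + 1)) * m ! := by ring
          _ ≤ (4 * p) * (3 * p * O) := Nat.mul_le_mul (by omega) f3
          _ = 3 * (4 * p ^ 2 * O) := by ring
      omega
    · apply key {m - 1} ((m - (m - 1))! * (m - 1))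
      · obtain ⟨k, hk⟩ := ho
        refine ⟨k, ?_⟩
        simp only [Multiset.sum_singleton, Multiset.card_singleton]
        omega
      · rw [Multiset.lcm_singleton, normalize_eq]
        exact hpm
      · exact hsing m (m - 1) (by omega) (by omega)
      · have h6 : m - (m - 1) = 1 := by omega
        rw [h6, Nat.factorial_one, one_mul]
        obtain ⟨j, hj⟩ : ∃ j, m = j + 1 := ⟨m - 1, by omega⟩
        have h7 : j + 2 ≤ 3 * p := by omega
        have h8 : m - 1 = j := by omega
        rw [h8]
        nlinarith

end Pool.Agent.Y145.OQ.MID
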